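import Pool.Agent.Q266.RP.Stm4

/-! Project RP (MP_6bdd40_al), job CCOMM. -/

set_option autoImplicit false

namespace Pool.Agent.Q181.RPC

open Pool.Agent.Q266.RP

theorem pw (hF : S_FALL) (p : ℕ) [Fact p.Prime] (G : Type) [Group G] [Finite G]
    (hp : IsPGroup p G) (hC : CRegular p G) (k : ℕ) (a b : G) :
    a ^ (p ^ k) = (b * a * b⁻¹) ^ (p ^ k) ↔ (a⁻¹ * (b * a * b⁻¹)) ^ (p ^ k) = 1 := by
  have ha : a ∈ Subgroup.closure ({a, b * a * b⁻¹} : Set G) :=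
    Subgroup.subset_closure (Set.mem_insert _ _)
  have hb : b * a * b⁻¹ ∈ Subgroup.closure ({a, b * a * b⁻¹} : Set G) :=
    Subgroup.subset_closure (Set.mem_insert_of_mem _ rfl)
  have h := hF p (Subgroup.closure ({a, b * a * b⁻¹} : Set G)) (hp.to_subgroup _) (hC a b) k
    ⟨a, ha⟩ ⟨b * a * b⁻¹, hb⟩
  rw [Subtype.ext_iff, Subtype.ext_iff] at h
  exact h

theorem ccomm : S_FALL → S_CCOMM := by
  intro hF p _ G _ _ hp hC k x g
  set q := p ^ k with hq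
  have h1 : x ^ q * g = g * x ^ q ↔ (x⁻¹ * (g * x * g⁻¹)) ^ q = 1 := by
    rw [← pw hF p G hp hC k x g, conj_pow]
    constructor
    · intro h2
      rw [eq_mul_inv_iff_mul_eq]
      exact h2
    · intro h2
      rwa [eq_mul_inv_iff_mul_eq] at h2
  have h2 : x * g ^ q = g ^ q * x ↔ (g⁻¹ * (x * g * x⁻¹)) ^ q = 1 := by
    rw [← pw hF p G hp hC k g x, conj_pow]
    constructor
    · intro h2
      rw [eq_mul_inv_iff_mul_eq]
      exact h2.symm
    · intro h2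
      rw [eq_mul_inv_iff_mul_eq] at h2
      exact h2.symm
  have h3 : g⁻¹ * (x * g * x⁻¹) = (g⁻¹ * x) * (x⁻¹ * (g * x * g⁻¹))⁻¹ * (g⁻¹ * x)⁻¹ := by
    group
  rw [h1, h2, h3, conj_pow, inv_pow, conj_eq_one_iff, inv_eq_one]

end Pool.Agent.Q181.RPC
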